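import Pool.Agent.K6.H60.RN.Ner

/-!
# Monsters and groups of almost automorphisms of trees

Let `X` be a finite alphabet. The group of all almost automorphisms of the rooted tree `X^*` (Neretin's
group of the regular tree; it acts on the boundary `X^ℕ`) contains the groups of Higman and Thompson, all
the groups `V(G)` of Röver and Nekrashevych (some of these are finitely presented and contain groups of
Burnside type, for instance Grigorchuk's group), and the groups of automorphisms of locally finite regular
trees, such as `PGL(2, ℚ_p)`. We show that it contains no finitely generated monster of type (3), (4), (5)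
or (6), finitely presented or not: every homomorphism from such a monster of type (3), (4) or (5) is
trivial, and every homomorphism from one of type (6) has a finite image.

Outline of the proof. For an almost automorphism `h` and a point `x` of the boundary let `c(h, x)` be the
change of the length of the long prefixes of `x` under `h`; this is a cocycle. If it is bounded on a
finitely generated group then the group acts through a residually finite group. If it is not bounded, a
pigeonhole argument gives an element which maps a cone strictly into itself, hence an attracting fixed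
point `p`. For types (5) and (6) the number `c(h, p)` gives a contradiction, as `h` has only finitely many
attracting fixed points. For type (3) the stabilizer of `p` is generated by an element `s` with `c(s, p) > 0`.
If `c(s ^ n, x)` is bounded in `n` for some point `x` of the closure of the orbit of `p`, then a point `q` of
the orbit is in a cone `C` which is invariant under a power of `s`; comparing the cyclic stabilizers of `C`
and of its image under the contraction at `q` gives an infinite cyclic normal subgroup with a cyclic
quotient. Otherwise powers of `s` and of a conjugate of `s` play ping-pong on the closure and generate a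
free group.
-/

set_option autoImplicit false

namespace Pool.Agent.Results.MP_65b575_al.AlmostAutomorphismGroups

open Pool.Agent.K6.H60

/-- The sequence `u x`: the word `u` followed by the sequence `x`. -/
def app {X : Type} (u : List X) (x : ℕ → X) : ℕ → X :=
  fun n => if h : n < u.length then u[n] else x (n - u.length)

/-- `g` is the action of an automorphism of the rooted tree `X^*` on the boundary: it preserves the
lengths of the common prefixes. -/
def IsAut {X : Type} (g : Equiv.Perm (ℕ → X)) : Prop :=
  ∀ (n : ℕ) (x y : ℕ → X), (∀ k < n, g x k = g y k) ↔ ∀ k < n, x k = y k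

/-- `h` is an almost automorphism of the tree: there is `m` such that for every word `u` of length `m`
there are a word `v` and an automorphism `g` of the tree with `h (u x) = v g(x)` for all sequences `x`. -/
def AlmostAut {X : Type} (h : Equiv.Perm (ℕ → X)) : Prop :=
  ∃ m : ℕ, ∀ u : List X, u.length = m → ∃ (v : List X) (g : Equiv.Perm (ℕ → X)), IsAut g ∧
    ∀ x, h (app u x) = app v (g x)

/-- Type (3): `K` is not cyclic, and every proper subgroup of `K` is cyclic. -/
def Type3 (K : Type) [Group K] : Prop :=
  ¬ IsCyclic K ∧ ∀ H : Subgroup K, H ≠ ⊤ → IsCyclic H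

/-- Type (4): for some prime `p` every nontrivial proper subgroup is cyclic of order `p`. -/
def Type4 (K : Type) [Group K] : Prop :=
  ∃ p : ℕ, p.Prime ∧ ∀ H : Subgroup K, H ≠ ⊥ → H ≠ ⊤ → IsCyclic H ∧ Nat.card H = p

/-- Type (5): `K` is complete. -/
def Type5 (K : Type) [Group K] : Prop :=
  ∀ g : K, ∀ m : ℕ, 1 ≤ m → ∃ h : K, h ^ m = g

/-- Type (6): `K` has finitely many conjugacy classes. -/
def Type6 (K : Type) [Group K] : Prop :=
  Finite (ConjClasses K)

theorem app_eq {X : Type} (u : List X) (x : ℕ → X) : app u x = RN.ap u x := by
  induction u with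
  | nil => funext n; simp [app, RN.ap]
  | cons a u ih =>
    funext n
    show app (a :: u) x n = RN.cons a (RN.ap u x) n
    rw [← ih]
    cases n with
    | zero => simp [app]
    | succ n =>
      rw [RN.cons_succ]
      by_cases h : n < u.length
      · simp [app, h]
      · simp [app, h]

theorem pre_iff {X : Type} (n : ℕ) (x y : ℕ → X) :
    RN.pre n x = RN.pre n y ↔ ∀ k < n, x k = y k := by
  constructor
  · intro h k hk
    obtain ⟨j, rfl⟩ := Nat.exists_eq_add_of_lt hk
    exact RN.pre_succ_eq (RN.pre_mono (by omega) h)
  · exact RN.pre_of_lt

theorem isAut_iff {X : Type} (g : Equiv.Perm (ℕ → X)) : IsAut g ↔ RN.IsAut g := by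
  unfold IsAut RN.IsAut
  simp only [pre_iff]

theorem type4_type3 {G : Type} [Group G] [Infinite G] (h : Type4 G) : Type3 G := by
  obtain ⟨p, hp, h⟩ := h
  refine ⟨?_, ?_⟩
  · rintro ⟨c, hc⟩
    have hcf : ¬ IsOfFinOrder c := by
      intro hf
      have h1 : (Set.univ : Set G).Finite := by
        refine hf.finite_zpowers.subset ?_
        intro g _
        obtain ⟨a, ha⟩ := hc g
        exact ⟨a, ha⟩
      exact Set.infinite_univ h1
    have h1 : Subgroup.zpowers (c ^ (2 : ℤ)) ≠ ⊥ := by
      intro e
      rw [Subgroup.zpowers_eq_bot] at e
      have := R673.MG.zpow_inj_of hcf (e.trans (zpow_zero c).symm)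
      omega
    have h2 : Subgroup.zpowers (c ^ (2 : ℤ)) ≠ ⊤ := by
      intro e
      have h3 : c ∈ Subgroup.zpowers (c ^ (2 : ℤ)) := by rw [e]; trivial
      obtain ⟨a, ha⟩ := h3
      have ha' : (c ^ (2 : ℤ)) ^ a = c ^ (1 : ℤ) := by rw [zpow_one]; exact ha
      rw [← zpow_mul] at ha'
      have := R673.MG.zpow_inj_of hcf ha'
      omega
    obtain ⟨-, h3⟩ := h _ h1 h2
    rw [Nat.card_zpowers] at h3
    have h4 : IsOfFinOrder (c ^ (2 : ℤ)) := by
      rw [← orderOf_pos_iff, h3]
      exact hp.pos
    apply hcf
    obtain ⟨n, hn, hn1⟩ := isOfFinOrder_iff_pow_eq_one.1 h4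
    rw [← zpow_natCast, ← zpow_mul] at hn1
    have := R673.MG.zpow_inj_of hcf (hn1.trans (zpow_zero c).symm)
    omega
  · intro H hH
    by_cases hb : H = ⊥
    · rw [hb]
      exact isCyclic_of_subsingleton
    · exact (h H hb hH).1

/-- Let `K` be a finitely generated infinite group and `φ` a homomorphism from `K` to the group of the
almost automorphisms of the tree `X^*` (acting on the sequences), where `X` is a finite set. If `K` is of
type (3), (4) or (5) then `φ` is trivial. If `K` is of type (6) then `φ` has a finite image. In particular
`φ` is not injective if `K` is of one of the types (3), (4), (5), (6). -/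
theorem result (X : Type) [Finite X] (K : Type) [Group K] [Infinite K] [Group.FG K]
    (φ : K →* Equiv.Perm (ℕ → X)) (hφ : ∀ k, AlmostAut (φ k)) :
    (Type3 K ∨ Type4 K ∨ Type5 K → ∀ k, φ k = 1) ∧
    (Type6 K → (Set.range φ).Finite) ∧
    (Type3 K ∨ Type4 K ∨ Type5 K ∨ Type6 K → ¬ Function.Injective φ) := by
  have hmain : (Type3 K ∨ Type4 K ∨ Type5 K → ∀ k, φ k = 1) ∧ (Type6 K → (Set.range φ).Finite) := by
    rcases subsingleton_or_nontrivial X with hX | hX
    · have h1 : ∀ k, φ k = 1 := fun k => Equiv.ext fun x => Subsingleton.elim _ _
      refine ⟨fun _ => h1, fun _ => (Set.finite_singleton 1).subset ?_⟩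
      rintro _ ⟨k, rfl⟩
      exact h1 k
    · have hV : ∀ k, RN.InV (RN.treeAut X) (φ k) := by
        intro k
        apply RN.AlmostAut.inV
        obtain ⟨m, hm⟩ := hφ k
        refine ⟨m, fun u hu => ?_⟩
        obtain ⟨v, g, hg, e⟩ := hm u hu
        refine ⟨v, g, (isAut_iff g).1 hg, fun x => ?_⟩
        rw [← app_eq, ← app_eq]
        exact e x
      have h3 : Type3 K → ∀ k, φ k = 1 := fun h k => Equiv.ext fun x =>
        RN.type3_trivial RN.selfSim_treeAut hV inferInstance
          (R673.MG.cyclic_no_fi h.1 h.2) h.2 x k
      refine ⟨?_, fun h => ?_⟩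
      · rintro (h | h | h)
        · exact h3 h
        · exact h3 (type4_type3 h)
        · exact fun k => Equiv.ext fun x => RN.type5_trivial RN.selfSim_treeAut hV inferInstance h x k
      · have h1 : Finite φ.range := RN.type6_finite RN.selfSim_treeAut hV inferInstance h
        exact h1
  refine ⟨hmain.1, hmain.2, fun h hinj => ?_⟩
  have h1 : (Set.range φ).Finite := by
    rcases h with h | h | h | h
    · refine (Set.finite_singleton 1).subset ?_
      rintro _ ⟨k, rfl⟩
      exact hmain.1 (Or.inl h) k
    · refine (Set.finite_singleton 1).subset ?_
      rintro _ ⟨k, rfl⟩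
      exact hmain.1 (Or.inr (Or.inl h)) k
    · refine (Set.finite_singleton 1).subset ?_
      rintro _ ⟨k, rfl⟩
      exact hmain.1 (Or.inr (Or.inr h)) k
    · exact hmain.2 h
  exact (Set.infinite_range_of_injective hinj) h1

end Pool.Agent.Results.MP_65b575_al.AlmostAutomorphismGroups
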