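import Pool.Agent.K6.H58.CA.Virt
import Pool.Agent.K6.H58.CA.Proj
import Pool.Agent.K6.H58.CA.Type3
import Pool.Agent.N6.W.Semi
import Pool.Agent.N6.W.Types
import Pool.Agent.R673.MG.Types

/-!
# Monsters and piecewise analytic homeomorphisms of the circle

The finitely presented monsters of type (1) of Lodha and Moore are groups of piecewise projective
homeomorphisms of the circle. We show that the groups of piecewise projective homeomorphisms of the circle
contain no finitely generated monsters of the types (2)-(7). For the types (2), (3), (4), (6), (7) this holds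
for the group of all orientation-preserving homeomorphisms which are piecewise real-analytic, with any
breakpoints and any one-sided derivatives at them: it contains the groups of Thompson, Higman, Stein, Bieri
and Strebel on the circle and on intervals, all piecewise linear and piecewise projective homeomorphisms, and
the analytic diffeomorphisms.

Outline of the proof. Let `G` be the image of `K`, and for `g` in `G` with a fixed point let `R(g)` be the set of
the fixed points `p` of `g` such that `g` moves points on the right of `p` arbitrarily close to `p`; it is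
finite by analyticity, and empty only if `g = 1`. If no `g ≠ 1` has a fixed point then `G` is abelian (Hölder,
by translation numbers), and the claims are easy. Type (6): `h g ^ n h⁻¹ = g ^ m` with `n ≠ m`; then `h`
permutes `R(g)`, a power of `h` fixes `p ∈ R(g)`, so the derivatives on the right of `p` of all elements which fix
`p` are `1`, and the leading coefficient of `g(x) - x` at `p` is multiplied by `n` in `g ^ n`, by `m` in `g ^ m`,
and unchanged by the conjugation, a contradiction. Type (5): roots of `g` of all orders fix `p`, and their germs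
at `p` are given by matrices over one finitely generated ring, which is residually finite. Type (3): if `G` has a
global fixed point then its germs there give homomorphisms to `ℝ` (Thurston's argument); otherwise by
B. H. Neumann's lemma some conjugate of `g` has fixed points different from those of `g`, and powers of
both generate a free group. Type (7): `K` has no free semigroup of rank two. By ping-pong the components of the
supports of the elements with fixed points are equal or disjoint; by Hölder's theorem these elements
commute, and by a ping-pong argument for wreath products and translation numbers they form a subgroup of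
finite index.
-/

set_option autoImplicit false

open scoped Pointwise Topology

namespace Pool.Agent.Results.MP_65b575_al.CircleActions

open Pool.Agent.K6.H58

/-- `F` is a lift of the permutation `g` of the circle `ℝ / ℤ`; so `g` is an orientation-preserving
homeomorphism. -/
def IsLift (g : Equiv.Perm UnitAddCircle) (F : ℝ ≃o ℝ) : Prop :=
  (∀ x, F (x + 1) = F x + 1) ∧ ∀ x : ℝ, g (x : UnitAddCircle) = (F x : UnitAddCircle)

/-- `g` is an orientation-preserving piecewise analytic homeomorphism of the circle: it has a lift which
coincides near every point `x`, on the right and on the left of `x`, with real-analytic functions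
with positive derivative at `x`. -/
def PiecewiseAnalytic (g : Equiv.Perm UnitAddCircle) : Prop :=
  ∃ F : ℝ ≃o ℝ, IsLift g F ∧ ∀ x,
    (∃ A : ℝ → ℝ, AnalyticAt ℝ A x ∧ 0 < deriv A x ∧ ∀ᶠ y in 𝓝[≥] x, F y = A y) ∧
    (∃ A : ℝ → ℝ, AnalyticAt ℝ A x ∧ 0 < deriv A x ∧ ∀ᶠ y in 𝓝[≤] x, F y = A y)

/-- `g` is an orientation-preserving piecewise projective homeomorphism of the circle: it has a lift which
coincides near every point `x`, on the right and on the left of `x`, with functions
`y ↦ (a y + b) / (c y + d)`, `a d - b c > 0` (for instance, with affine functions). -/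
def PiecewiseProjective (g : Equiv.Perm UnitAddCircle) : Prop :=
  ∃ F : ℝ ≃o ℝ, IsLift g F ∧ ∀ x,
    (∃ a b c d : ℝ, 0 < a * d - b * c ∧ c * x + d ≠ 0 ∧
      ∀ᶠ y in 𝓝[≥] x, F y = (a * y + b) / (c * y + d)) ∧
    (∃ a b c d : ℝ, 0 < a * d - b * c ∧ c * x + d ≠ 0 ∧
      ∀ᶠ y in 𝓝[≤] x, F y = (a * y + b) / (c * y + d))

/-- Type (2): the exponent is finite. -/
def Type2 (K : Type) [Group K] : Prop :=
  ∃ n : ℕ, 1 ≤ n ∧ ∀ g : K, g ^ n = 1

/-- Type (3): `K` is not cyclic, and every proper subgroup of `K` is cyclic. -/
def Type3 (K : Type) [Group K] : Prop :=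
  ¬ IsCyclic K ∧ ∀ H : Subgroup K, H ≠ ⊤ → IsCyclic H

/-- Type (4): for some prime `p` every nontrivial proper subgroup is cyclic of order `p`. -/
def Type4 (K : Type) [Group K] : Prop :=
  ∃ p : ℕ, p.Prime ∧ ∀ H : Subgroup K, H ≠ ⊥ → H ≠ ⊤ → IsCyclic H ∧ Nat.card H = p

/-- Type (5): `K` is complete. -/
def Type5 (K : Type) [Group K] : Prop :=
  ∀ g : K, ∀ m : ℕ, 1 ≤ m → ∃ h : K, h ^ m = g

/-- Type (6): `K` has finitely many conjugacy classes. -/
def Type6 (K : Type) [Group K] : Prop :=
  Finite (ConjClasses K)

/-- The growth function with respect to `S`: the number of elements of word length at most `n`. -/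
noncomputable def growth {K : Type} [Group K] (S : Finset K) (n : ℕ) : ℕ :=
  (((S : Set K) ∪ (S : Set K)⁻¹ ∪ {1}) ^ n).ncard

/-- Type (7): for a finite generating set the growth function is bounded above by no polynomial and
bounded below by no exponential function `e ^ (c r)`, `c > 0`. -/
def Type7 (K : Type) [Group K] : Prop :=
  ∃ S : Finset K, Subgroup.closure (S : Set K) = ⊤ ∧
    (∀ C d : ℕ, ∃ r : ℕ, C * (r + 1) ^ d < growth S r) ∧
    ∀ c : ℝ, 0 < c → ∃ r : ℕ, (growth S r : ℝ) < Real.exp (c * r)

/-- The product of the letters `a` (for `false`) and `b` (for `true`) along the list `l`. -/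
def word {K : Type} [Group K] (a b : K) (l : List Bool) : K :=
  (l.map fun t => if t then b else a).prod

/-- No two elements generate a free semigroup of rank two. -/
def NoFreeSemigroup (K : Type) [Group K] : Prop :=
  ∀ a b : K, ∃ l l' : List Bool, l ≠ l' ∧ word a b l = word a b l'

theorem type4_type3 {G : Type} [Group G] [Infinite G] (h : Type4 G) : Type3 G := by
  obtain ⟨p, hp, h⟩ := h
  refine ⟨?_, ?_⟩
  · rintro ⟨c, hc⟩
    have hcf : ¬ IsOfFinOrder c := by
      intro hf
      have h1 : (Set.univ : Set G).Finite := by
        refine hf.finite_zpowers.subset ?_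
        intro g _
        obtain ⟨a, ha⟩ := hc g
        exact ⟨a, ha⟩
      exact Set.infinite_univ h1
    have h1 : Subgroup.zpowers (c ^ (2 : ℤ)) ≠ ⊥ := by
      intro e
      rw [Subgroup.zpowers_eq_bot] at e
      have := R673.MG.zpow_inj_of hcf (e.trans (zpow_zero c).symm)
      omega
    have h2 : Subgroup.zpowers (c ^ (2 : ℤ)) ≠ ⊤ := by
      intro e
      have h3 : c ∈ Subgroup.zpowers (c ^ (2 : ℤ)) := by rw [e]; trivial
      obtain ⟨a, ha⟩ := h3
      have ha' : (c ^ (2 : ℤ)) ^ a = c ^ (1 : ℤ) := by rw [zpow_one]; exact ha
      rw [← zpow_mul] at ha'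
      have := R673.MG.zpow_inj_of hcf ha'
      omega
    obtain ⟨-, h3⟩ := h _ h1 h2
    rw [Nat.card_zpowers] at h3
    have h4 : IsOfFinOrder (c ^ (2 : ℤ)) := by
      rw [← orderOf_pos_iff, h3]
      exact hp.pos
    apply hcf
    obtain ⟨n, hn, hn1⟩ := isOfFinOrder_iff_pow_eq_one.1 h4
    rw [← zpow_natCast, ← zpow_mul] at hn1
    have := R673.MG.zpow_inj_of hcf (hn1.trans (zpow_zero c).symm)
    omega
  · intro H hH
    by_cases hb : H = ⊥
    · rw [hb]
      exact isCyclic_of_subsingleton
    · exact (h H hb hH).1

/-- Let `K` be a finitely generated infinite group, and `φ` a homomorphism from `K` to the group of the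
orientation-preserving piecewise analytic homeomorphisms of the circle.

(a) If `K` is of type (3) or (4) then `φ` is trivial.
(b) If `K` is of type (2) or (6) then `φ` has a finite image.
(c) If `K` has no free semigroup of rank two (for instance, if `K` is of type (7)) then the image of a subgroup
of finite index of `K` is abelian.
(d) If `K` is of type (5) and the values of `φ` are piecewise projective then `φ` is trivial.

So `φ` is not injective if `K` is of one of the types (2), (3), (4), (6), (7), or of type (5) and the values are
piecewise projective. -/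
theorem result (K : Type) [Group K] [Infinite K] [Group.FG K]
    (φ : K →* Equiv.Perm UnitAddCircle) (hφ : ∀ k, PiecewiseAnalytic (φ k)) :
    (Type3 K ∨ Type4 K → ∀ k, φ k = 1) ∧
    (Type2 K ∨ Type6 K → (Set.range φ).Finite) ∧
    (NoFreeSemigroup K → ∃ A : Subgroup K, A.FiniteIndex ∧
      ∀ x ∈ A, ∀ y ∈ A, φ (x * y) = φ (y * x)) ∧
    (Type5 K → (∀ k, PiecewiseProjective (φ k)) → ∀ k, φ k = 1) ∧
    (Type2 K ∨ Type3 K ∨ Type4 K ∨ Type6 K ∨ Type7 K ∨
      (Type5 K ∧ ∀ k, PiecewiseProjective (φ k)) → ¬ Function.Injective φ) := by
  have hP : ∀ k, CA.PAn (φ k) := hφ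
  have hor : ∀ k, ∃ F, CA.IsLift (φ k) F := fun k => (hP k).imp fun _ h => h.1
  have h3 : Type3 K → ∀ k, φ k = 1 := fun h k =>
    CA.type3_trivial hP (R673.MG.cyclic_no_fi h.1 h.2) h.2 k
  have hA : Type3 K ∨ Type4 K → ∀ k, φ k = 1 := by
    rintro (h | h)
    · exact h3 h
    · exact h3 (type4_type3 h)
  have hB : Type2 K ∨ Type6 K → (Set.range φ).Finite := by
    rintro (⟨n, hn, h⟩ | h)
    · have hcomm := CA.commute_of_free hor (fun k hne => by
        obtain ⟨F, hF⟩ := hor k
        exact CA.eq_one_of_torsion hF hne hn (by rw [← map_pow, h, map_one]))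
      let i : CommGroup φ.range :=
        { (inferInstance : Group φ.range) with
          mul_comm := by
            rintro ⟨_, a, rfl⟩ ⟨_, b, rfl⟩
            exact Subtype.ext (hcomm a b) }
      have hfg : Group.FG φ.range := Group.fg_range φ
      have h1 : Finite φ.range := by
        apply @CommGroup.finite_of_fg_isMulTorsion φ.range i hfg
        rintro ⟨_, k, rfl⟩
        rw [isOfFinOrder_iff_pow_eq_one]
        refine ⟨n, hn, Subtype.ext ?_⟩
        show (φ k) ^ n = 1
        rw [← map_pow, h, map_one]
      exact h1
    · exact CA.type6_finite hP h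
  have hC : NoFreeSemigroup K → ∃ A : Subgroup K, A.FiniteIndex ∧
      ∀ x ∈ A, ∀ y ∈ A, φ (x * y) = φ (y * x) := by
    intro hN
    obtain ⟨A, hA, h⟩ := CA.virt (K := K) (φ := φ) hN hP
    refine ⟨A, hA, fun x hx y hy => ?_⟩
    rw [map_mul, map_mul]
    exact h x hx y hy
  have hD : Type5 K → (∀ k, PiecewiseProjective (φ k)) → ∀ k, φ k = 1 := by
    intro h hpr k
    have hpr' : ∀ k, CA.PPr (φ k) := hpr
    exact CA.comm_image_trivial (R673.MG.complete_no_fi h) φ
      (CA.commute_of_free hor (CA.free_of_div hpr' h)) k
  refine ⟨hA, hB, hC, hD, ?_⟩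
  intro h hinj
  have htriv : (∀ k, φ k = 1) → False := by
    intro h1
    refine (Set.infinite_range_of_injective hinj) ((Set.finite_singleton 1).subset ?_)
    rintro _ ⟨k, rfl⟩
    exact h1 k
  rcases h with h | h | h | h | h | h
  · exact (Set.infinite_range_of_injective hinj) (hB (Or.inl h))
  · exact htriv (hA (Or.inl h))
  · exact htriv (hA (Or.inr h))
  · exact (Set.infinite_range_of_injective hinj) (hB (Or.inr h))
  · obtain ⟨S, hS, hpoly, hexp⟩ := h
    have hNF : NoFreeSemigroup K := by
      intro a b
      have h3 := N6.W.no_freePair S hS hexp a b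
      unfold Pool.Agent.H785R3.GrowthA.FreePair at h3
      push Not at h3
      obtain ⟨l, l', -, h4, h5⟩ := h3
      exact ⟨l, l', h5, h4⟩
    obtain ⟨A, hA, hab⟩ := hC hNF
    exact N6.W.not_injective_of_type7 K φ A hA (fun a ha b hb => by
      rw [← map_mul, ← map_mul, hab a ha b hb]) S hpoly hinj
  · exact htriv (hD h.1 h.2)

end Pool.Agent.Results.MP_65b575_al.CircleActions
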