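import Pool.Agent.K6.H34.PA.Main
import Pool.Agent.R673.MG.Types

/-!
# Finitely presented monsters and piecewise integral affine maps

Let `D` be a bounded subset of `ℝ ^ d` given by finitely many linear inequalities with rational coefficients
and real constants, and let `K` be a finitely presented group which acts on `D` by permutations that are
piecewise of the form `x ↦ A x + b`, with integral matrices `A` and arbitrary real vectors `b` (interval and
rectangle exchange transformations with arbitrary real lengths and with flips, the group `SL(d, ℤ) ⋉ ℝ ^ d`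
acting on the torus and all the groups of piecewise maps made of it, groups of area preserving piecewise
linear maps with integral slopes, ...). Then every element of `K` that acts nontrivially survives in a finite
quotient of `K`. So finitely presented monsters of type (3), (4) or (5) act trivially, those of type (6) act
through finite groups, and so do all those without subgroups of finite index, of any type.

Both hypotheses are needed: Thompson's group `V` (finitely presented, infinite and simple) acts on an interval
by piecewise affine maps with slopes in `ℤ[1/2]`, and Houghton's groups (finitely presented, with an infinite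
simple subgroup) by piecewise translations of an unbounded set.

Outline of the proof. The parameters (the constants in the inequalities and the coordinates of the `b`)
are real numbers, which may satisfy any linear relations over `ℚ`. The statement that there are parameters
such that the formulas define permutations of a bounded set which satisfy the relations of `K` and for
which a given word acts nontrivially is a first-order statement about ordered vector spaces over `ℚ`. By a
quantifier elimination (with test points) which is uniform in the ordered field it holds over `ℚ`. For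
rational parameters, the set of the points of the new `D` with a given denominator `N` is finite, and it is
invariant if `N` is a denominator of the parameters.
-/

set_option autoImplicit false

namespace Pool.Agent.Results.MP_65b575_al.PiecewiseIntegralAffine

open Pool.Agent.K6.H34

universe u

/-- Semilinear subsets of `ℝ ^ d`: finite Boolean combinations of half-spaces
`{x | 0 < ∑ a i * x i + c}` with rational coefficients `a i` and real constants `c`. -/
inductive Semilinear {d : ℕ} : Set (Fin d → ℝ) → Prop
  | half (a : Fin d → ℚ) (c : ℝ) : Semilinear {x | 0 < ∑ i, (a i : ℝ) * x i + c}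
  | compl {S : Set (Fin d → ℝ)} : Semilinear S → Semilinear Sᶜ
  | inter {S T : Set (Fin d → ℝ)} : Semilinear S → Semilinear T → Semilinear (S ∩ T)

/-- `f` is a piecewise integral affine permutation of `D`: the set `D` is covered by finitely many
semilinear sets on each of which `f` is a map `x ↦ A x + b` with an integral matrix `A` and a real
vector `b`. -/
def IsPIA {d : ℕ} {D : Set (Fin d → ℝ)} (f : Equiv.Perm D) : Prop :=
  ∃ (n : ℕ) (C : Fin n → Set (Fin d → ℝ)) (A : Fin n → Matrix (Fin d) (Fin d) ℤ)
    (b : Fin n → Fin d → ℝ), (∀ j, Semilinear (C j)) ∧ (∀ x : D, ∃ j, (x : Fin d → ℝ) ∈ C j) ∧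
    ∀ (x : D) (j : Fin n), (x : Fin d → ℝ) ∈ C j →
      ∀ k, (f x : Fin d → ℝ) k = ∑ l, (A j k l : ℝ) * (x : Fin d → ℝ) l + b j k

/-- `K` has no proper subgroup of finite index. -/
def NoFiniteIndex (K : Type u) [Group K] : Prop :=
  ∀ H : Subgroup K, H.FiniteIndex → H = ⊤

/-- Type (3): `K` is not cyclic, and every proper subgroup of `K` is cyclic. -/
def Type3 (K : Type u) [Group K] : Prop :=
  ¬ IsCyclic K ∧ ∀ H : Subgroup K, H ≠ ⊤ → IsCyclic H

/-- Type (4): for some prime `p` every nontrivial proper subgroup is cyclic of order `p`. -/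
def Type4 (K : Type u) [Group K] : Prop :=
  ∃ p : ℕ, p.Prime ∧ ∀ H : Subgroup K, H ≠ ⊥ → H ≠ ⊤ → IsCyclic H ∧ Nat.card H = p

/-- Type (5): `K` is complete. -/
def Type5 (K : Type u) [Group K] : Prop :=
  ∀ g : K, ∀ m : ℕ, 1 ≤ m → ∃ h : K, h ^ m = g

/-- Type (6): `K` has finitely many conjugacy classes. -/
def Type6 (K : Type u) [Group K] : Prop :=
  Finite (ConjClasses K)

theorem Semilinear.sl {d : ℕ} {S : Set (Fin d → ℝ)} (h : Semilinear S) : PA.SL d S := by
  induction h with
  | half a c => exact PA.SL.half a c
  | compl _ ih => exact ih.compl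
  | inter _ _ ih ih' => exact ih.inter ih'

theorem IsPIA.pia {d : ℕ} {D : Set (Fin d → ℝ)} {f : Equiv.Perm D}
    (h : IsPIA f) : PA.PIA D f := by
  obtain ⟨n, C, A, b, h1, h2, h3⟩ := h
  exact ⟨n, C, A, b, fun j => (h1 j).sl, h2, h3⟩

theorem type4_type3 {G : Type u} [Group G] [Infinite G] (h : Type4 G) : Type3 G := by
  obtain ⟨p, hp, h⟩ := h
  refine ⟨?_, ?_⟩
  · rintro ⟨c, hc⟩
    have hcf : ¬ IsOfFinOrder c := by
      intro hf
      have h1 : (Set.univ : Set G).Finite := by
        refine hf.finite_zpowers.subset ?_
        intro g _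
        obtain ⟨a, ha⟩ := hc g
        exact ⟨a, ha⟩
      exact Set.infinite_univ h1
    have h1 : Subgroup.zpowers (c ^ (2 : ℤ)) ≠ ⊥ := by
      intro e
      rw [Subgroup.zpowers_eq_bot] at e
      have := R673.MG.zpow_inj_of hcf (e.trans (zpow_zero c).symm)
      omega
    have h2 : Subgroup.zpowers (c ^ (2 : ℤ)) ≠ ⊤ := by
      intro e
      have h3 : c ∈ Subgroup.zpowers (c ^ (2 : ℤ)) := by rw [e]; trivial
      obtain ⟨a, ha⟩ := h3
      have ha' : (c ^ (2 : ℤ)) ^ a = c ^ (1 : ℤ) := by rw [zpow_one]; exact ha
      rw [← zpow_mul] at ha'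
      have := R673.MG.zpow_inj_of hcf ha'
      omega
    obtain ⟨-, h3⟩ := h _ h1 h2
    rw [Nat.card_zpowers] at h3
    have h4 : IsOfFinOrder (c ^ (2 : ℤ)) := by
      rw [← orderOf_pos_iff, h3]
      exact hp.pos
    apply hcf
    obtain ⟨n, hn, hn1⟩ := isOfFinOrder_iff_pow_eq_one.1 h4
    rw [← zpow_natCast, ← zpow_mul] at hn1
    have := R673.MG.zpow_inj_of hcf (hn1.trans (zpow_zero c).symm)
    omega
  · intro H hH
    by_cases hb : H = ⊥
    · rw [hb]
      exact isCyclic_of_subsingleton
    · exact (h H hb hH).1

/-- A group with finitely many conjugacy classes has finitely many normal subgroups. -/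
theorem finite_normal {G : Type u} [Group G] (h : Type6 G) :
    {N : Subgroup G | N.Normal}.Finite := by
  have : Finite (ConjClasses G) := h
  refine Set.Finite.of_injOn (f := fun N : Subgroup G => ConjClasses.mk '' (N : Set G))
    (t := Set.univ) (fun _ _ => Set.mem_univ _) ?_ Set.finite_univ
  intro N hN M hM hNM
  have hN' : N.Normal := hN
  have hM' : M.Normal := hM
  have key : ∀ (A B : Subgroup G), B.Normal → ConjClasses.mk '' (A : Set G) ⊆ ConjClasses.mk '' (B : Set G) →
      A ≤ B := by
    intro A B hB hAB g hg
    obtain ⟨b, hb, hbg⟩ := hAB ⟨g, hg, rfl⟩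
    obtain ⟨c, hc⟩ := isConj_iff.1 (ConjClasses.mk_eq_mk_iff_isConj.1 hbg)
    rw [← hc]
    exact hB.conj_mem b hb c
  exact le_antisymm (key N M hM' hNM.le) (key M N hN' hNM.ge)

/-- Let `D` be a bounded semilinear subset of `ℝ ^ d` (rational coefficients, real constants) and `φ` a
homomorphism from a finitely presented group `K` to the group of the permutations of `D` whose values are
piecewise integral affine. (1) For every `k` with `φ k ≠ 1` there is a normal subgroup of finite index of `K`
which does not contain `k`. (2) If `K` has no proper subgroup of finite index then `φ` is trivial. (3) If `K`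
is infinite and of type (3), (4) or (5) then `φ` is trivial; if it is of type (6) then `φ` has a finite
image; so `φ` is not injective if `K` is a monster of one of the types (3), (4), (5), (6). -/
theorem result (d : ℕ) (D : Set (Fin d → ℝ)) (hD : Semilinear D) (hb : Bornology.IsBounded D)
    (K : Type u) [Group K] [Group.IsFinitelyPresented K] (φ : K →* Equiv.Perm D)
    (hφ : ∀ k, IsPIA (φ k)) :
    (∀ k, φ k ≠ 1 → ∃ N : Subgroup K, N.Normal ∧ N.FiniteIndex ∧ k ∉ N) ∧
    (NoFiniteIndex K → ∀ k, φ k = 1) ∧
    (Infinite K →
      (Type3 K ∨ Type4 K ∨ Type5 K → ∀ k, φ k = 1) ∧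
      (Type6 K → (Set.range φ).Finite) ∧
      (Type3 K ∨ Type4 K ∨ Type5 K ∨ Type6 K → ¬ Function.Injective φ)) := by
  have h1 : ∀ k, φ k ≠ 1 → ∃ N : Subgroup K, N.Normal ∧ N.FiniteIndex ∧ k ∉ N :=
    fun k hk => PA.separate hD.sl hb φ (fun k => (hφ k).pia) k hk
  have h2 : NoFiniteIndex K → ∀ k, φ k = 1 := by
    intro hK k
    by_contra hk
    obtain ⟨N, -, hN, hkN⟩ := h1 k hk
    rw [hK N hN] at hkN
    exact hkN (Subgroup.mem_top k)
  have h3 : Infinite K → Type3 K ∨ Type4 K ∨ Type5 K → ∀ k, φ k = 1 := by
    intro hinf h
    apply h2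
    intro H hH
    rcases h with h | h | h
    · exact R673.MG.cyclic_no_fi h.1 h.2 H hH
    · have h' := type4_type3 h
      exact R673.MG.cyclic_no_fi h'.1 h'.2 H hH
    · exact R673.MG.complete_no_fi h H hH
  have h4 : Type6 K → (Set.range φ).Finite := by
    intro h6
    let 𝒩 : Set (Subgroup K) := {N | N.Normal ∧ N.FiniteIndex}
    have hfin : 𝒩.Finite := (finite_normal h6).subset fun N hN => hN.1
    let M : Subgroup K := sInf 𝒩
    have hM : M.FiniteIndex := by
      have h7 : Finite 𝒩 := hfin.to_subtype
      have h8 : M = ⨅ N : 𝒩, N.1 := sInf_eq_iInf' 𝒩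
      rw [h8]
      exact Subgroup.finiteIndex_iInf fun N => N.2.2
    have hle : M ≤ φ.ker := by
      intro k hk
      rw [MonoidHom.mem_ker]
      by_contra hk1
      obtain ⟨N, hN, hNf, hkN⟩ := h1 k hk1
      exact hkN (Subgroup.mem_sInf.1 hk N ⟨hN, hNf⟩)
    have hker : φ.ker.FiniteIndex := Subgroup.finiteIndex_of_le hle
    have h9 : Finite (K ⧸ φ.ker) := Subgroup.finite_quotient_of_finiteIndex
    have h10 : Finite φ.range := Finite.of_equiv _ (QuotientGroup.quotientKerEquivRange φ).toEquiv
    have h11 : ((φ.range : Subgroup (Equiv.Perm D)) : Set (Equiv.Perm D)).Finite := Set.toFinite _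
    rwa [MonoidHom.coe_range] at h11
  refine ⟨h1, h2, fun hinf => ⟨h3 hinf, h4, ?_⟩⟩
  intro h hinj
  have h5 : (Set.range φ).Infinite := Set.infinite_range_of_injective hinj
  have h6 : ∀ k, φ k = 1 → k = 1 := fun k hk => hinj (hk.trans (map_one φ).symm)
  have h7 : (∀ k, φ k = 1) → False := by
    intro h8
    obtain ⟨a, b, hab⟩ := exists_pair_ne K
    exact hab ((h6 a (h8 a)).trans (h6 b (h8 b)).symm)
  rcases h with h | h | h | h
  · exact h7 (h3 hinf (Or.inl h))
  · exact h7 (h3 hinf (Or.inr (Or.inl h)))
  · exact h7 (h3 hinf (Or.inr (Or.inr h)))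
  · exact h5 (h4 h)

end Pool.Agent.Results.MP_65b575_al.PiecewiseIntegralAffine
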