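import Pool.Agent.K6.H60.RN.S5

/-!
# Finitely presented monsters and the groups of Röver and Nekrashevych

Let `G` be a self-similar group acting on the sequences over a finite alphabet, all of whose elements are
finite-state, and let `V(G)` be the group of the permutations of the sequences which act piecewise by
`u x ↦ v g(x)` with `g ∈ G` (the group of Röver and Nekrashevych; for `G = 1` it is the group of Higman and
Thompson). We show that a finitely generated subgroup of `V(G)` without free subsemigroups of rank two has a
subgroup of finite index which embeds in a power of `G × ℤ`. Many of the groups `V(G)` are finitely presented,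
although they contain infinite torsion groups and groups of intermediate growth (Röver's group contains
Grigorchuk's group), so it is natural to look there for finitely presented monsters of types (2) and (7).
If `G` is of polynomial activity (for instance generated by a bounded automaton) we obtain that there are
none: every finitely presented subgroup of `V(G)` without free subsemigroups is virtually abelian.

Outline of the proof. For `h` in `V(G)` and a sequence `x` let `c(h, x)` be the change of the length of the
long prefixes of `x`. If `K` acts without free semigroups, ping-pong shows that an attracting fixed point `p`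
(`h p = p`, `c(h, p) > 0`) is isolated in its orbit. A compactness argument and the finite generation of the
kernel of `c(·, p)` (Milnor's lemma) on the stabilizer of `p` show that there are only finitely many such points;
let a subgroup of finite index fix them. The kernel `N` of `c(·, p)` acts on a cone at `p` by elements of `G`,
and as these are finite-state, a power of the contraction `h` acts on `N` by conjugation like an element of
`G`; so the germs at `p` embed virtually in `G × ℤ`. Away from the attracting points the cocycle is bounded and
the group acts on finitely many cones by elements of `G`. For finitely presented groups one uses in addition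
the theorem `FreeOrVirtuallyAbelian` of the starting files on homomorphisms to `G`.
-/

set_option autoImplicit false

namespace Pool.Agent.Results.MP_65b575_al.RoeverNekrashevychGroups

open Pool.Agent.K6.H60

/-- The sequence `u x`: the word `u` followed by the sequence `x`. -/
def app {X : Type} (u : List X) (x : ℕ → X) : ℕ → X :=
  fun n => if h : n < u.length then u[n] else x (n - u.length)

/-- The group `G` of permutations of the sequences is self-similar: for `g ∈ G` and a letter `a` there
are a letter `b` and `g' ∈ G` with `g (a x) = b g'(x)` for all sequences `x`. -/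
def SelfSimilar {X : Type} (G : Subgroup (Equiv.Perm (ℕ → X))) : Prop :=
  ∀ g ∈ G, ∀ a : X, ∃ b : X, ∃ g' ∈ G, ∀ x, g (app [a] x) = app [b] (g' x)

/-- `h` is in `V(G)`: there is `m` such that for every word `u` of length `m` there are a word `v` and
`g ∈ G` with `h (u x) = v g(x)` for all sequences `x`. -/
def InV {X : Type} (G : Subgroup (Equiv.Perm (ℕ → X))) (h : Equiv.Perm (ℕ → X)) : Prop :=
  ∃ m : ℕ, ∀ u : List X, u.length = m → ∃ v : List X, ∃ g ∈ G, ∀ x, h (app u x) = app v (g x)

/-- `g` is finite-state: it has finitely many sections `g'`, where `g (u x) = v g'(x)` for all `x` with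
words `u`, `v` of the same length. -/
def FiniteState {X : Type} (g : Equiv.Perm (ℕ → X)) : Prop :=
  {g' : Equiv.Perm (ℕ → X) | ∃ u v : List X, u.length = v.length ∧
    ∀ x, g (app u x) = app v (g' x)}.Finite

/-- `g` is of polynomial activity: the number of words of length `m` at which the section of `g` is
nontrivial is bounded by a polynomial in `m`. -/
def PolynomialActivity {X : Type} (g : Equiv.Perm (ℕ → X)) : Prop :=
  ∃ c n : ℕ, ∀ m : ℕ, {u : List X | u.length = m ∧ ¬ ∃ v : List X, v.length = u.length ∧
    ∀ x, g (app u x) = app v x}.ncard ≤ c * (m + 1) ^ n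

/-- The product of the letters `a` (for `false`) and `b` (for `true`) along the list `l`. -/
def word {K : Type} [Group K] (a b : K) (l : List Bool) : K :=
  (l.map fun t => if t then b else a).prod

/-- No two elements generate a free semigroup of rank two. -/
def NoFreeSemigroup (K : Type) [Group K] : Prop :=
  ∀ a b : K, ∃ l l' : List Bool, l ≠ l' ∧ word a b l = word a b l'

/-- `K` has an abelian subgroup of finite index. -/
def VirtAbelian (K : Type) [Group K] : Prop :=
  ∃ A : Subgroup K, A.FiniteIndex ∧ ∀ x ∈ A, ∀ y ∈ A, x * y = y * x

open scoped Pointwise in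
/-- The growth function with respect to `S`: the number of elements of word length at most `n`. -/
noncomputable def growth {K : Type} [Group K] (S : Finset K) (n : ℕ) : ℕ :=
  (((S : Set K) ∪ (S : Set K)⁻¹ ∪ {1}) ^ n).ncard

/-- Type (2). -/
def Type2 (K : Type) [Group K] : Prop :=
  ∃ n : ℕ, 1 ≤ n ∧ ∀ g : K, g ^ n = 1

/-- Type (7): for a finite generating set the growth function is bounded above by no polynomial and
bounded below by no exponential function `e ^ (c r)`, `c > 0`. -/
def Type7 (K : Type) [Group K] : Prop :=
  ∃ S : Finset K, Subgroup.closure (S : Set K) = ⊤ ∧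
    (∀ C d : ℕ, ∃ r : ℕ, C * (r + 1) ^ d < growth S r) ∧
    ∀ c : ℝ, 0 < c → ∃ r : ℕ, (growth S r : ℝ) < Real.exp (c * r)

theorem app_eq {X : Type} (u : List X) (x : ℕ → X) : app u x = RN.ap u x := by
  induction u with
  | nil => funext n; simp [app, RN.ap]
  | cons a u ih =>
    funext n
    show app (a :: u) x n = RN.cons a (RN.ap u x) n
    rw [← ih]
    cases n with
    | zero => simp [app]
    | succ n =>
      rw [RN.cons_succ]
      by_cases h : n < u.length
      · simp [app, h]
      · simp [app, h]

/-- Let `G` be a self-similar group of finite-state permutations of the sequences over a finite set `X`.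

(1) Every finitely generated group `K` without free semigroups of rank two which embeds in `V(G)` has a
subgroup of finite index which embeds in `(G × ℤ)^n` for some `n`.

(2) Suppose that the elements of `G` are of polynomial activity. Let `K` be a finitely presented group
and `φ` a homomorphism from `K` to `V(G)`. If `K` has no free semigroup of rank two then the image of `φ` is
virtually abelian; if `K` is a torsion group then the image is finite; if `K` is infinite and of type (2) or
(7), then `φ` is not injective. -/
theorem result (X : Type) [Finite X] (G : Subgroup (Equiv.Perm (ℕ → X))) (hG : SelfSimilar G)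
    (hfs : ∀ g ∈ G, FiniteState g) :
    (∀ (K : Type) [Group K] [Group.FG K] (φ : K →* Equiv.Perm (ℕ → X)), (∀ k, InV G (φ k)) →
      Function.Injective φ → NoFreeSemigroup K →
      ∃ P : Subgroup K, P.FiniteIndex ∧ ∃ (n : ℕ) (Φ : P →* (Fin n → G × Multiplicative ℤ)),
        Function.Injective Φ) ∧
    ((∀ g ∈ G, PolynomialActivity g) →
      ∀ (K : Type) [Group K] [Group.IsFinitelyPresented K] (φ : K →* Equiv.Perm (ℕ → X)),
        (∀ k, InV G (φ k)) →
        (NoFreeSemigroup K → VirtAbelian φ.range) ∧
        ((∀ k : K, ∃ n : ℕ, 0 < n ∧ k ^ n = 1) → Finite φ.range) ∧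
        (Infinite K → Type2 K ∨ Type7 K → ¬ Function.Injective φ)) := by
  have hG' : RN.SelfSim G := by
    intro g hg a
    obtain ⟨b, g', hg', e⟩ := hG g hg a
    refine ⟨b, g', hg', fun x => ?_⟩
    have h1 := e x
    rw [app_eq, app_eq] at h1
    exact h1
  have hV' : ∀ h, InV G h → RN.InV G h := by
    rintro h ⟨m, hm⟩
    refine ⟨m, fun u hu => ?_⟩
    obtain ⟨v, g, hg, e⟩ := hm u hu
    refine ⟨v, g, hg, fun x => ?_⟩
    rw [← app_eq, ← app_eq]
    exact e x
  have hFS : ∀ g ∈ G, (RN.Sec g).Finite := by
    intro g hg
    refine (hfs g hg).subset ?_
    rintro g' ⟨u, v, h1, h2⟩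
    refine ⟨u, v, h1, fun x => ?_⟩
    rw [app_eq, app_eq]
    exact h2 x
  have hone : Subsingleton X → ∀ h : Equiv.Perm (ℕ → X), h = 1 := fun hX h =>
    Equiv.ext fun x => Subsingleton.elim _ _
  constructor
  · intro K _ _ φ hφ hinj hNF
    rcases subsingleton_or_nontrivial X with hX | hX
    · refine ⟨⊤, inferInstance, 0, 1, ?_⟩
      intro a b _
      apply Subtype.ext
      apply hinj
      rw [hone hX (φ a), hone hX (φ b)]
    · refine RN.virt_emb hG' (fun k => hV' _ (hφ k)) hFS inferInstance ?_ hinj
      intro a b
      obtain ⟨l, l', hne, he⟩ := hNF a b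
      exact N6.W.homog a b l l' hne he
  · intro hpol K _ _ φ hφ
    have hKfg : Group.FG K := N6.W.fg_of_fp K
    have hTT : Pool.Agent.N59.TT.TT G := by
      rcases isEmpty_or_nonempty X with hX | hX
      · have h1 : ∀ g : G, g = 1 := fun g => Subtype.ext (hone inferInstance _)
        have h2 : Subsingleton G := ⟨fun a b => by rw [h1 a, h1 b]⟩
        exact Pool.Agent.N59.TT.TT.of_VAb _ ⟨⊤, inferInstance, fun x _ y _ => Subsingleton.elim _ _⟩
      · obtain ⟨a⟩ := hX
        refine Pool.Agent.N59.TT.pol_TT X inferInstance G (RN.wHom hG' (fun _ => a))
          (RN.wHom_inj hG' _) Set.univ Subgroup.closure_univ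
          (fun g _ => RN.wHom_isTree hG' _ g) (fun g _ => Or.inr ⟨?_, ?_⟩)
        · exact RN.wHom_sections hG' _ g (hFS g g.2)
        · apply RN.wHom_pol
          obtain ⟨c, n, h⟩ := hpol g g.2
          refine ⟨c, n, fun m => ?_⟩
          have h1 := h m
          simp only [app_eq] at h1
          exact h1
    have h1 : NoFreeSemigroup K → Pool.Agent.N59.TT.VAb φ.range := by
      intro hNF
      rcases subsingleton_or_nontrivial X with hX | hX
      · refine ⟨⊤, inferInstance, fun x _ y _ => ?_⟩
        apply Subtype.ext
        rw [hone hX (x * y : φ.range), hone hX (y * x : φ.range)]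
      · have h2 : Pool.Agent.N59.TT.TT φ.range := RN.range_closed hG' (fun k => hV' _ (hφ k)) hFS
          hKfg hNF Pool.Agent.N59.TT.closed_TT hTT
        have h3 := h2 K inferInstance (RN.not_F2 hNF) φ.rangeRestrict
        rw [MonoidHom.range_eq_top.2 φ.rangeRestrict_surjective] at h3
        exact Pool.Agent.N59.TT.VAb.top h3
    have hrfg : Group.FG φ.range := Group.fg_range φ
    have h2 : (∀ k : K, ∃ n : ℕ, 0 < n ∧ k ^ n = 1) → Finite φ.range := by
      intro ht
      refine Pool.Agent.N607.TTTOR.main φ.range hrfg (h1 ?_) ?_
      · intro a b
        obtain ⟨n, hn, e⟩ := ht a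
        refine ⟨List.replicate n false, [], ?_, ?_⟩
        · intro h0
          have := congrArg List.length h0
          simp at this
          omega
        · simp [word, e]
      · rintro ⟨_, k, rfl⟩
        obtain ⟨n, hn, e⟩ := ht k
        refine ⟨n, hn, Subtype.ext ?_⟩
        show (φ k) ^ n = 1
        rw [← map_pow, e, map_one]
    refine ⟨h1, h2, ?_⟩
    rintro hinf (h | h) hinj
    · obtain ⟨n, hn, h⟩ := h
      have h3 : (Set.range φ).Finite := h2 (fun k => ⟨n, hn, h k⟩)
      exact (Set.infinite_range_of_injective hinj) h3
    · obtain ⟨S, hS, hpoly, hexp⟩ := h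
      have hNF : NoFreeSemigroup K := by
        intro a b
        have h3 := N6.W.no_freePair S hS hexp a b
        unfold Pool.Agent.H785R3.GrowthA.FreePair at h3
        push Not at h3
        obtain ⟨l, l', -, h4, h5⟩ := h3
        exact ⟨l, l', h5, h4⟩
      obtain ⟨A, hA, hab⟩ := Pool.Agent.N59.TT.VAb.of_inj φ.rangeRestrict (fun a b hab => by
        apply hinj
        exact congrArg Subtype.val hab) (h1 hNF)
      exact N6.W.not_injective_of_type7 K φ A hA (fun a ha b hb => by
        rw [← map_mul, ← map_mul, hab a ha b hb]) S hpoly hinj

end Pool.Agent.Results.MP_65b575_al.RoeverNekrashevychGroups
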